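import Pool.Agent.Helper856.Cw.Width

open SimpleGraph Pool.Agent.Helper856.Lcw Pool.Agent.Helper856.Cw

namespace Pool.Agent.Results.MP_042ec1_co.BoundedCw

/-- Sanity: a nonempty finite graph has some construction, so the minimum defining
`cliqueWidth` is attained. -/
theorem attained {V : Type} [Finite V] [Nonempty V] (G : SimpleGraph V) :
    CwLE G (cliqueWidth G) := by
  obtain ⟨k, hk⟩ := exists_lcwLE G
  exact Nat.sInf_mem (s := {k | CwLE G k}) ⟨k, cwLE_of_lcwLE hk⟩

/-- Q1: the `(K_3, P_1 + S_{1,1,3})`-free graphs have bounded clique-width (and even bounded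
linear clique-width). -/
theorem result : ∃ c : ℕ, ∀ (V : Type) [Finite V] (G : SimpleGraph V),
    G.CliqueFree 3 → ¬ P1_S113.IsIndContained G →
      cliqueWidth G ≤ c ∧ linearCliqueWidth G ≤ c := by
  refine ⟨2 * (5 * 10 ^ 8) + 1, fun V _ G hK hF => ?_⟩
  cases isEmpty_or_nonempty V with
  | inl hV =>
    have h1 : {k | CwLE G k} = ∅ := by
      ext k
      simp only [Set.mem_setOf_eq, Set.mem_empty_iff_false, iff_false]
      rintro ⟨W, G', l, hb, ⟨e⟩⟩
      have hW : IsEmpty W := e.symm.toEquiv.isEmpty
      have key : ∀ (W : Type) (G' : SimpleGraph W) (l : W → Fin k), CwBuilt k W G' l →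
          Nonempty W := by
        intro W G' l hb
        induction hb with
        | single i => exact ⟨()⟩
        | union V W G H l m _ _ ih1 _ => obtain ⟨v⟩ := ih1; exact ⟨Sum.inl v⟩
        | join V G l i j _ _ ih => exact ih
        | relabel V G l i j _ ih => exact ih
      obtain ⟨w⟩ := key W G' l hb
      exact hW.false w
    have h2 : {k | LcwLE G k} = ∅ := by
      ext k
      simp only [Set.mem_setOf_eq, Set.mem_empty_iff_false, iff_false]
      intro h
      have : k ∈ ({k | CwLE G k} : Set ℕ) := cwLE_of_lcwLE h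
      rw [h1] at this
      exact this
    constructor
    · unfold cliqueWidth
      rw [h1]
      simp
    · unfold linearCliqueWidth
      rw [h2]
      simp
  | inr hV =>
    have h := lcw_bound G hK hF
    exact ⟨Nat.sInf_le (cwLE_of_lcwLE h), Nat.sInf_le h⟩

end Pool.Agent.Results.MP_042ec1_co.BoundedCw
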